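import Pool.Agent.V7H60.NI.Set

/-! The n-term abc inequality on unirational subvarieties, with one exceptional set. -/

set_option autoImplicit false

namespace Pool.Agent.V7H60.NI

open MvPolynomial NumberField IsDedekindDomain Module Pool.Agent.R366.NF Pool.Agent.R366.AB
open Pool.Agent.N753.DR (lN)
open Pool.Agent.N262.DR (lN_nonneg)
open scoped LinearAlgebra.Projectivization

variable {K : Type} [Field K] [NumberField K] {n q r : ℕ}

/-- the places where two forms are small -/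
lemma common_le (F G : MvPolynomial (Fin (n + 1)) (𝓞 K)) {k e : ℕ} (hF : F.IsHomogeneous k)
    (hG : G.IsHomogeneous e) : ∃ C : ℝ, 0 ≤ C ∧ ∀ x : Fin (n + 1) → K, x ≠ 0 → aeval x F ≠ 0 →
      aeval x G ≠ 0 → ∀ T : Finset (HeightOneSpectrum (𝓞 K)),
        (∀ v ∈ T, v ∈ Pl F k x ∧ v ∈ Pl G e x) →
        ∑ v ∈ T, lN v ≤ idealHeight F G k e x + C := by
  classical
  obtain ⟨A, hA1, hA⟩ := arch_form_le F hF
  obtain ⟨A', hA'1, hA'⟩ := arch_form_le G hG
  have hlog : 0 ≤ Real.log (max A A') := Real.log_nonneg (hA1.trans (le_max_left _ _))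
  refine ⟨∑ w : InfinitePlace K, w.mult * Real.log (max A A'),
    Finset.sum_nonneg fun w _ => mul_nonneg (Nat.cast_nonneg _) hlog, ?_⟩
  intro x hx hFx hGx T hT
  have hs0 : ∀ v : HeightOneSpectrum (𝓞 K), 0 < ⨆ i, FinitePlace.mk v (x i) :=
    fun v => sup_pos hx (FinitePlace.mk v).1
  have hfin : ((({v : HeightOneSpectrum (𝓞 K) | FinitePlace.mk v (aeval x F) ≠ 1} ∪
      {v : HeightOneSpectrum (𝓞 K) | FinitePlace.mk v (aeval x G) ≠ 1}) ∪
      {v : HeightOneSpectrum (𝓞 K) | (⨆ i, FinitePlace.mk v (x i)) ≠ 1}) ∪ (T : Set _)).Finite :=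
    (((fin_ne_one hFx).union (fin_ne_one hGx)).union (sup_fin hx)).union T.finite_toSet
  obtain ⟨V, hV⟩ : ∃ V, V = hfin.toFinset := ⟨_, rfl⟩
  have hVm : ∀ v, v ∉ V → FinitePlace.mk v (aeval x F) = 1 ∧ FinitePlace.mk v (aeval x G) = 1 ∧
      (⨆ i, FinitePlace.mk v (x i)) = 1 := by
    intro v hv
    rw [hV, Set.Finite.mem_toFinset, Set.mem_union, Set.mem_union, Set.mem_union, not_or, not_or,
      not_or] at hv
    obtain ⟨⟨⟨h1, h2⟩, h3⟩, -⟩ := hv
    refine ⟨?_, ?_, ?_⟩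
    · by_contra h; exact h1 h
    · by_contra h; exact h2 h
    · by_contra h; exact h3 h
  have hloc0 : ∀ v : HeightOneSpectrum (𝓞 K), 0 ≤ idealLoc F G k e x (FinitePlace.mk v) := by
    intro v
    unfold idealLoc
    rw [le_neg, neg_zero]
    refine Real.log_nonpos (le_max_of_le_left (div_nonneg (apply_nonneg _ _)
      (pow_nonneg (hs0 v).le _))) (max_le ?_ ?_)
    · rw [div_le_one (pow_pos (hs0 v) _)]
      exact fp_form_le _ _ hF x
    · rw [div_le_one (pow_pos (hs0 v) _)]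
      exact fp_form_le _ _ hG x
  have hfs : ∑ᶠ v : FinitePlace K, idealLoc F G k e x v =
      ∑ v ∈ V, idealLoc F G k e x (FinitePlace.mk v) := by
    rw [← finsum_comp_equiv (FinitePlace.equivHeightOneSpectrum (K := K)).symm]
    refine finsum_eq_sum_of_support_subset _ ?_
    intro v hv
    by_contra hvT
    obtain ⟨h1, h2, h3⟩ := hVm v hvT
    apply hv
    show idealLoc F G k e x (FinitePlace.mk v) = 0
    unfold idealLoc
    rw [h1, h2, h3]
    simp
  have harch : -∑ w : InfinitePlace K, w.mult * Real.log (max A A') ≤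
      ∑ w : InfinitePlace K, w.mult * idealLoc F G k e x w := by
    rw [← Finset.sum_neg_distrib]
    refine Finset.sum_le_sum fun w _ => ?_
    rw [← mul_neg]
    refine mul_le_mul_of_nonneg_left ?_ (Nat.cast_nonneg _)
    unfold idealLoc
    rw [neg_le_neg_iff]
    have hs : 0 < ⨆ i, w (x i) := sup_pos hx w.1
    refine Real.log_le_log (lt_max_of_lt_left (div_pos (InfinitePlace.pos_iff.2 hFx)
      (pow_pos hs _))) (max_le_max ?_ ?_)
    · rw [div_le_iff₀ (pow_pos hs _)]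
      exact hA w x
    · rw [div_le_iff₀ (pow_pos hs _)]
      exact hA' w x
  have hT1 : ∑ v ∈ T, lN v ≤ ∑ v ∈ T, idealLoc F G k e x (FinitePlace.mk v) := by
    refine Finset.sum_le_sum fun v hv => ?_
    obtain ⟨h1, h2⟩ := hT v hv
    obtain ⟨σ, hσ⟩ : ∃ σ, σ = ⨆ i, FinitePlace.mk v (x i) := ⟨_, rfl⟩
    have hσ0 : 0 < σ := by rw [hσ]; exact hs0 v
    have h1' : FinitePlace.mk v (aeval x F) < σ ^ k := by rw [hσ]; exact h1
    have h2' : FinitePlace.mk v (aeval x G) < σ ^ e := by rw [hσ]; exact h2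
    obtain ⟨i₁, hi₁⟩ : ∃ i₁, FinitePlace.mk v (x i₁) = σ := by
      have := exists_eq_ciSup_of_finite (f := fun i => FinitePlace.mk v (x i))
      rw [hσ]
      exact this
    have hx1 : x i₁ ≠ 0 := by
      rw [← FinitePlace.pos_iff (w := FinitePlace.mk v), hi₁]; exact hσ0
    have h7 : FinitePlace.mk v (aeval x F) / σ ^ k ≤ (Ideal.absNorm v.asIdeal : ℝ)⁻¹ := by
      have h8 : FinitePlace.mk v (aeval x F) / σ ^ k =
          FinitePlace.mk v (aeval x F / x i₁ ^ k) := by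
        rw [map_div₀, map_pow, hi₁]
      rw [h8]
      refine fp_lt_one v (div_ne_zero hFx (pow_ne_zero _ hx1)) ?_
      rw [← h8, div_lt_one (pow_pos hσ0 _)]
      exact h1'
    have h9 : FinitePlace.mk v (aeval x G) / σ ^ e ≤ (Ideal.absNorm v.asIdeal : ℝ)⁻¹ := by
      have h8 : FinitePlace.mk v (aeval x G) / σ ^ e =
          FinitePlace.mk v (aeval x G / x i₁ ^ e) := by
        rw [map_div₀, map_pow, hi₁]
      rw [h8]
      refine fp_lt_one v (div_ne_zero hGx (pow_ne_zero _ hx1)) ?_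
      rw [← h8, div_lt_one (pow_pos hσ0 _)]
      exact h2'
    unfold idealLoc lN
    rw [← hσ, le_neg, ← Real.log_inv]
    exact Real.log_le_log (lt_max_of_lt_left (div_pos (FinitePlace.pos_iff.2 hFx)
      (pow_pos hσ0 _))) (max_le h7 h9)
  have hT2 : ∑ v ∈ T, idealLoc F G k e x (FinitePlace.mk v) ≤
      ∑ v ∈ V, idealLoc F G k e x (FinitePlace.mk v) := by
    refine Finset.sum_le_sum_of_subset_of_nonneg ?_ fun v _ _ => hloc0 v
    intro v hv
    rw [hV, Set.Finite.mem_toFinset]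
    exact Or.inr hv
  unfold idealHeight
  rw [hfs]
  linarith

/-- inclusion and exclusion -/
lemma incl_excl {α : Type} [DecidableEq α] (l : α → ℝ) (hl : ∀ v, 0 ≤ l v) (P : Fin q → Finset α) :
    ∑ j, ∑ v ∈ P j, l v ≤ ∑ v ∈ Finset.univ.biUnion P, l v +
      ∑ p ∈ (Finset.univ : Finset (Fin q)).offDiag, ∑ v ∈ P p.1 ∩ P p.2, l v := by
  classical
  set U := Finset.univ.biUnion P with hU
  have hsub : ∀ j, P j ⊆ U := fun j => Finset.subset_biUnion_of_mem P (Finset.mem_univ j)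
  have h1 : ∀ s : Finset α, s ⊆ U → ∑ v ∈ s, l v = ∑ v ∈ U, if v ∈ s then l v else 0 := by
    intro s hs
    rw [← Finset.sum_filter]
    congr 1
    ext v
    rw [Finset.mem_filter]
    exact ⟨fun h => ⟨hs h, h⟩, fun h => h.2⟩
  have h2 : ∑ j, ∑ v ∈ P j, l v = ∑ v ∈ U, ∑ j, if v ∈ P j then l v else 0 := by
    rw [Finset.sum_comm]
    exact Finset.sum_congr rfl fun j _ => h1 _ (hsub j)
  have h3 : ∑ p ∈ (Finset.univ : Finset (Fin q)).offDiag, ∑ v ∈ P p.1 ∩ P p.2, l v =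
      ∑ v ∈ U, ∑ p ∈ (Finset.univ : Finset (Fin q)).offDiag,
        if v ∈ P p.1 ∩ P p.2 then l v else 0 := by
    rw [Finset.sum_comm]
    exact Finset.sum_congr rfl fun p _ => h1 _ (Finset.inter_subset_left.trans (hsub _))
  rw [h2, h3, ← Finset.sum_add_distrib]
  refine Finset.sum_le_sum fun v hv => ?_
  rw [hU, Finset.mem_biUnion] at hv
  obtain ⟨j0, -, hj0⟩ := hv
  rw [← Finset.add_sum_erase _ _ (Finset.mem_univ j0), if_pos hj0]
  refine add_le_add le_rfl ?_
  have h4 : ∑ j ∈ Finset.univ.erase j0, (if v ∈ P j then l v else 0) =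
      ∑ p ∈ (Finset.univ.erase j0).image (fun j => (j0, j)),
        if v ∈ P p.1 ∩ P p.2 then l v else 0 := by
    rw [Finset.sum_image (fun j _ j' _ h => (Prod.ext_iff.1 h).2)]
    refine Finset.sum_congr rfl fun j _ => ?_
    simp only [Finset.mem_inter, hj0, true_and]
  rw [h4]
  refine Finset.sum_le_sum_of_subset_of_nonneg ?_ ?_
  · intro p hp
    rw [Finset.mem_image] at hp
    obtain ⟨j, hj, rfl⟩ := hp
    rw [Finset.mem_erase] at hj
    rw [Finset.mem_offDiag]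
    exact ⟨Finset.mem_univ _, Finset.mem_univ _, hj.1.symm⟩
  · intro p _ _
    split_ifs
    · exact hl v
    · exact le_rfl

/-- the truncated counting functions of several forms -/
lemma tc_sum (F : Fin q → MvPolynomial (Fin (n + 1)) (𝓞 K)) (k : Fin q → ℕ)
    (hF : ∀ j, (F j).IsHomogeneous (k j)) : ∃ C : ℝ, 0 ≤ C ∧ ∀ x : Fin (n + 1) → K, x ≠ 0 →
      (∀ j, aeval x (F j) ≠ 0) → ∑ j, tc (F j) (k j) x ≤ truncatedCount ∅ F k x +
        ∑ p ∈ (Finset.univ : Finset (Fin q)).offDiag,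
          idealHeight (F p.1) (F p.2) (k p.1) (k p.2) x + C := by
  classical
  choose c hc0 hc using fun p : Fin q × Fin q => common_le (F p.1) (F p.2) (hF p.1) (hF p.2)
  refine ⟨∑ p ∈ (Finset.univ : Finset (Fin q)).offDiag, c p,
    Finset.sum_nonneg fun p _ => hc0 p, ?_⟩
  intro x hx hFx
  have hfin := fun j => Pl_fin (F j) (k j) hx (hFx j)
  have h1 := incl_excl (fun v : HeightOneSpectrum (𝓞 K) => lN v) (fun v => lN_nonneg v)
    (fun j => (hfin j).toFinset)
  have h2 : ∑ j, tc (F j) (k j) x = ∑ j, ∑ v ∈ (hfin j).toFinset, lN v :=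
    Finset.sum_congr rfl fun j _ => tc_eq (F j) (k j) (hfin j)
  have h3 : truncatedCount ∅ F k x =
      ∑ v ∈ Finset.univ.biUnion fun j => (hfin j).toFinset, lN v := by
    unfold truncatedCount
    rw [finsum_eq_sum_of_support_subset _
      (s := Finset.univ.biUnion fun j => (hfin j).toFinset) (by
        intro v hv
        rw [Function.mem_support] at hv
        rw [Finset.mem_coe, Finset.mem_biUnion]
        by_contra hcon
        apply hv
        rw [if_neg]
        rintro ⟨-, j, hj⟩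
        exact hcon ⟨j, Finset.mem_univ j, (Set.Finite.mem_toFinset _).2 hj⟩)]
    refine Finset.sum_congr rfl fun v hv => ?_
    rw [Finset.mem_biUnion] at hv
    obtain ⟨j, -, hj⟩ := hv
    rw [Set.Finite.mem_toFinset] at hj
    rw [if_pos ⟨fun p hp => absurd hp (Finset.notMem_empty p), j, hj⟩]
    rfl
  rw [h2, h3]
  refine h1.trans ?_
  rw [add_assoc, ← Finset.sum_add_distrib]
  refine add_le_add le_rfl (Finset.sum_le_sum fun p _ => ?_)
  refine hc p x hx (hFx _) (hFx _) _ fun v hv => ?_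
  rw [Finset.mem_inter, Set.Finite.mem_toFinset, Set.Finite.mem_toFinset] at hv
  exact hv

/-- **the inequality off one set** -/
theorem main (K : Type) [Field K] [NumberField K] (n : ℕ) :
    ∃ E : Set (ℙ K (Fin (n + 1) → K)),
      (∀ U : ℝ, 0 ≤ U → {P : ℙ K (Fin (n + 1) → K) | P ∈ E ∧ Height.logHeight P.rep ≤ U}.Finite ∧
        ({P : ℙ K (Fin (n + 1) → K) | P ∈ E ∧ Height.logHeight P.rep ≤ U}.ncard : ℝ) ≤
          Real.exp ((n + 1 : ℕ) * U - √U)) ∧
      ∀ (q r : ℕ) (F : Fin q → MvPolynomial (Fin (n + 1)) (𝓞 K)) (k m : Fin q → ℕ),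
        (∀ j, (F j).IsHomogeneous (k j)) → (∀ j, Irreducible (toK (F j))) →
        (∀ i j, i ≠ j → ¬ Associated (toK (F i)) (toK (F j))) → (∀ j, Weight (F j) (k j) (m j)) →
        ∀ (D : ℕ) (a : Fin r → Fin q → ℕ), (∀ i, ∑ j, a i j * k j = D) →
        (∀ j, ∃ i, 1 ≤ a i j) → (∀ j, ∃ i, a i j = 0) →
        ∀ (c : Fin r → K), (∀ i, c i ≠ 0) → ∀ θ : ℝ, 0 < θ → θ < ∑ j, (m j : ℝ) →
        ∃ C : ℝ, ∀ P : ℙ K (Fin (n + 1) → K), P ∉ E → (∀ i, pt F a c P.rep i ≠ 0) →
          θ * Height.logHeight P.rep ≤ radK (pt F a c P.rep) + C ∧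
          Height.logHeight (pt F a c P.rep) ≤ D / θ * radK (pt F a c P.rep) + C := by
  classical
  obtain ⟨E, hE1, hE2, hE3⟩ := one_set K n
  refine ⟨E, hE1, ?_⟩
  intro q r F k m hhom hirr hdist hm D a ha hpos hzero c hc θ hθ0 hθ
  have hr : Nonempty (Fin r) := by
    by_contra hcon
    rw [not_nonempty_iff] at hcon
    have hq : IsEmpty (Fin q) := ⟨fun j => by
      obtain ⟨i, -⟩ := hpos j
      exact hcon.elim i⟩
    have h0 : ∑ j, (m j : ℝ) = 0 := by
      rw [Finset.univ_eq_empty, Finset.sum_empty]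
    linarith
  choose l hl using hzero
  have hcop2 : ∀ i j, i ≠ j → ¬ toK (F i) ∣ toK (F j) := fun i j hij hd =>
    hdist i j hij ((hirr i).associated_of_dvd (hirr j) hd)
  have hcop : ∀ j, ¬ toK (F j) ∣ toK (∏ j', F j' ^ a (l j) j') := by
    intro j hd
    rw [map_prod] at hd
    obtain ⟨j', -, h⟩ := ((hirr j).prime.dvd_finsetProd_iff _).1 hd
    rw [map_pow] at h
    by_cases hj : j' = j
    · subst hj
      rw [hl, pow_zero] at h
      exact (hirr j').not_isUnit (isUnit_of_dvd_one h)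
    · exact hcop2 j j' (Ne.symm hj) ((hirr j).prime.dvd_of_dvd_pow h)
  have hG : ∀ i, (∏ j', F j' ^ a i j').IsHomogeneous D := by
    intro i
    rw [← ha i]
    have := IsHomogeneous.prod Finset.univ (fun j' => F j' ^ a i j') (fun j' => a i j' * k j')
      (fun j' _ => by
        have := (hhom j').pow (a i j')
        rwa [mul_comm] at this)
    exact this
  obtain ⟨Δ, hΔ⟩ : ∃ Δ : ℝ, Δ = ∑ j, (m j : ℝ) - θ := ⟨_, rfl⟩
  have hΔ0 : 0 < Δ := by rw [hΔ]; linarith
  obtain ⟨Q, hQ⟩ : ∃ Q : ℝ, Q = (q : ℝ) + 1 := ⟨_, rfl⟩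
  have hq0 : (0 : ℝ) ≤ q := Nat.cast_nonneg q
  have hQ0 : 0 < Q := by rw [hQ]; positivity
  have hκ1 : 0 < Δ / (2 * Q) := by positivity
  have hκ2 : 0 < Δ / (4 * Q ^ 2) := by positivity
  have hκ3 : 0 < Δ / (4 * Q) := by positivity
  choose C1 hC10 hC1 using fun j => hE2 (F j) (k j) (m j) (hhom j) (hirr j) (hm j) _ hκ1
  have hpair : ∀ p : Fin q × Fin q, ∃ C : ℝ, 0 ≤ C ∧ (p.1 ≠ p.2 →
      ∀ P : ℙ K (Fin (n + 1) → K), P ∉ E → idealHeight (F p.1) (F p.2) (k p.1) (k p.2) P.rep ≤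
        Δ / (4 * Q ^ 2) * Height.logHeight P.rep + C) := by
    intro p
    by_cases hp : p.1 = p.2
    · exact ⟨0, le_rfl, fun h => absurd hp h⟩
    · obtain ⟨C, hC0, hC⟩ := hE3 (F p.1) (F p.2) (k p.1) (k p.2) (hhom _) (hhom _) (hirr _)
        (hcop2 _ _ hp) _ hκ2
      exact ⟨C, hC0, fun _ => hC⟩
  choose C2 hC20 hC2 using hpair
  choose C3 hC30 hC3 using fun j => hE3 (F j) (∏ j', F j' ^ a (l j) j') (k j) D (hhom j)
    (hG (l j)) (hirr j) (hcop j) _ hκ3
  obtain ⟨C4, hC40, hC4⟩ := tc_sum F k hhom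
  obtain ⟨C5, hC5⟩ := trunc_le_rad F k hhom D a ha hpos l c hc ∅
  obtain ⟨C6, hC6⟩ := height_pt F k hhom D a ha c
  obtain ⟨C7, hC7⟩ : ∃ C7 : ℝ, C7 = ∑ j, C1 j +
    ∑ p ∈ (Finset.univ : Finset (Fin q)).offDiag, C2 p + ∑ j, C3 j + C4 + C5 := ⟨_, rfl⟩
  refine ⟨max C7 (C6 + D / θ * C7), ?_⟩
  intro P hPE hz
  have hFP : ∀ j, aeval P.rep (F j) ≠ 0 := by
    intro j h0
    obtain ⟨i, hi⟩ := hpos j
    apply hz i
    unfold pt
    rw [Finset.prod_eq_zero (Finset.mem_univ j), mul_zero]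
    rw [h0, zero_pow (by omega)]
  have hh : 0 ≤ Height.logHeight P.rep := Height.logHeight_nonneg _
  have e1 : (∑ j, (m j : ℝ)) * Height.logHeight P.rep - Δ / 2 * Height.logHeight P.rep -
      ∑ j, C1 j ≤ ∑ j, tc (F j) (k j) P.rep := by
    have h1 : ∑ j, ((m j - Δ / (2 * Q)) * Height.logHeight P.rep - C1 j) ≤
        ∑ j, tc (F j) (k j) P.rep := by
      refine Finset.sum_le_sum fun j _ => ?_
      have := hC1 j P hPE (hFP j)
      linarith
    rw [Finset.sum_sub_distrib, ← Finset.sum_mul, Finset.sum_sub_distrib, Finset.sum_const,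
      Finset.card_univ, Fintype.card_fin, nsmul_eq_mul] at h1
    have h2 : (q : ℝ) * (Δ / (2 * Q)) ≤ Δ / 2 := by
      have h3 : (q : ℝ) * (Δ / (2 * Q)) = Δ / 2 * (q / Q) := by field_simp
      rw [h3]
      refine mul_le_of_le_one_right (by positivity) ?_
      rw [div_le_one hQ0, hQ]
      linarith
    have h4 := mul_le_mul_of_nonneg_right h2 hh
    rw [sub_mul] at h1
    linarith
  have e2 := hC4 P.rep P.rep_nonzero hFP
  have e3 : ∑ p ∈ (Finset.univ : Finset (Fin q)).offDiag,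
      idealHeight (F p.1) (F p.2) (k p.1) (k p.2) P.rep ≤ Δ / 4 * Height.logHeight P.rep +
        ∑ p ∈ (Finset.univ : Finset (Fin q)).offDiag, C2 p := by
    have h1 : ∑ p ∈ (Finset.univ : Finset (Fin q)).offDiag,
        idealHeight (F p.1) (F p.2) (k p.1) (k p.2) P.rep ≤
        ∑ p ∈ (Finset.univ : Finset (Fin q)).offDiag,
          (Δ / (4 * Q ^ 2) * Height.logHeight P.rep + C2 p) := by
      refine Finset.sum_le_sum fun p hp => ?_
      rw [Finset.mem_offDiag] at hp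
      exact hC2 p hp.2.2 P hPE
    rw [Finset.sum_add_distrib, Finset.sum_const, Finset.offDiag_card, Finset.card_univ,
      Fintype.card_fin, nsmul_eq_mul] at h1
    have h2 : ((q * q - q : ℕ) : ℝ) ≤ Q ^ 2 := by
      have h3 : ((q * q - q : ℕ) : ℝ) ≤ ((q * q : ℕ) : ℝ) := by exact_mod_cast Nat.sub_le _ _
      push_cast at h3
      rw [hQ]
      nlinarith
    have h4 : ((q * q - q : ℕ) : ℝ) * (Δ / (4 * Q ^ 2) * Height.logHeight P.rep) ≤
        Δ / 4 * Height.logHeight P.rep := by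
      have h5 := mul_le_mul_of_nonneg_right h2
        (by positivity : 0 ≤ Δ / (4 * Q ^ 2) * Height.logHeight P.rep)
      refine h5.trans (le_of_eq ?_)
      field_simp
    linarith
  have e4 := hC5 P.rep P.rep_nonzero hFP
  have e5 : ∑ j, idealHeight (F j) (∏ j', F j' ^ a (l j) j') (k j) D P.rep ≤
      Δ / 4 * Height.logHeight P.rep + ∑ j, C3 j := by
    have h1 : ∑ j, idealHeight (F j) (∏ j', F j' ^ a (l j) j') (k j) D P.rep ≤
        ∑ j, (Δ / (4 * Q) * Height.logHeight P.rep + C3 j) :=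
      Finset.sum_le_sum fun j _ => hC3 j P hPE
    rw [Finset.sum_add_distrib, Finset.sum_const, Finset.card_univ, Fintype.card_fin,
      nsmul_eq_mul] at h1
    have h2 : (q : ℝ) * (Δ / (4 * Q)) ≤ Δ / 4 := by
      have h3 : (q : ℝ) * (Δ / (4 * Q)) = Δ / 4 * (q / Q) := by field_simp
      rw [h3]
      refine mul_le_of_le_one_right (by positivity) ?_
      rw [div_le_one hQ0, hQ]
      linarith
    have h4 := mul_le_mul_of_nonneg_right h2 hh
    rw [← mul_assoc] at h1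
    linarith
  have e6 : radK (fun i => c i * ∏ j, aeval P.rep (F j) ^ a i j) = radK (pt F a c P.rep) := rfl
  rw [e6] at e4
  have e7 : θ * Height.logHeight P.rep ≤ radK (pt F a c P.rep) + C7 := by
    have h1 : θ * Height.logHeight P.rep = (∑ j, (m j : ℝ)) * Height.logHeight P.rep -
        Δ * Height.logHeight P.rep := by rw [hΔ]; ring
    rw [hC7]
    linarith
  refine ⟨e7.trans (add_le_add le_rfl (le_max_left _ _)), ?_⟩
  have e8 := hC6 P.rep
  have e9 : (D : ℝ) * Height.logHeight P.rep ≤ D / θ * (radK (pt F a c P.rep) + C7) := by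
    have h8 := mul_le_mul_of_nonneg_left e7 (by positivity : 0 ≤ (D : ℝ) / θ)
    rwa [← mul_assoc, div_mul_cancel₀ _ hθ0.ne'] at h8
  have e10 := le_max_right C7 (C6 + D / θ * C7)
  rw [mul_add] at e9
  linarith

end Pool.Agent.V7H60.NI
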