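import Pool.Agent.V7H60.NI.Wide

/-! Counting over dyadic boxes; the counts of the starting library. -/

set_option autoImplicit false

namespace Pool.Agent.V7H60.NI

open MvPolynomial NumberField IsDedekindDomain Module Pool.Agent.R366.NF Pool.Agent.R366.AB
open scoped LinearAlgebra.Projectivization

variable {K : Type} [Field K] [NumberField K] {n : ℕ}

lemma mulHeight_eq (P : ℙ K (Fin (n + 1) → K)) : P.mulHeight = Height.mulHeight P.rep := by
  conv_lhs => rw [← P.mk_rep]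
  exact Projectivization.mulHeight_mk _

lemma one_le_height (P : ℙ K (Fin (n + 1) → K)) : 1 ≤ P.mulHeight := by
  rw [mulHeight_eq]
  exact Height.one_le_mulHeight _

lemma logHeight_eq (P : ℙ K (Fin (n + 1) → K)) : Height.logHeight P.rep = Real.log P.mulHeight := by
  rw [mulHeight_eq]
  rfl

theorem count_of_boxes {D : ℝ} (hD : 1 ≤ D) (bad : ℙ K (Fin (n + 1) → K) → Prop) (c : ℝ)
    (hc : 0 < c) (C : ℝ)
    (h : ∀ B : ℕ, 1 ≤ B → ∃ Z : Finset (ℙ K (Fin (n + 1) → K)),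
      (Z.card : ℝ) ≤ C * (B : ℝ) ^ (D - c) ∧
      ∀ P : ℙ K (Fin (n + 1) → K), P.mulHeight ≤ B → (B : ℝ) < 2 * P.mulHeight → bad P → P ∈ Z) :
    ∃ ν C' : ℝ, 0 < ν ∧ ∀ U : ℝ, 0 ≤ U →
      {P : ℙ K (Fin (n + 1) → K) | bad P ∧ Height.logHeight P.rep ≤ U}.Finite ∧
      ({P : ℙ K (Fin (n + 1) → K) | bad P ∧ Height.logHeight P.rep ≤ U}.ncard : ℝ) ≤
        C' * Real.exp ((D - ν) * U) := by
  classical
  choose Z hZ1 hZ2 using h
  set c' : ℝ := min c 1 with hc'
  have hc'0 : 0 < c' := lt_min hc one_pos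
  have hc'1 : c' ≤ 1 := min_le_right _ _
  have hc'c : c' ≤ c := min_le_left _ _
  have hDc : 0 ≤ D - c' := by linarith
  refine ⟨c' / 2, (2 / c' + 2 + 2 / (c' * Real.log 2)) * (|C| * 2 ^ (D - c')), by positivity,
    fun U hU => ?_⟩
  have hl2 : 0 < Real.log 2 := Real.log_pos one_lt_two
  obtain ⟨k0, hk0⟩ : ∃ k0 : ℕ, k0 = ⌊U / Real.log 2⌋₊ + 2 := ⟨_, rfl⟩
  obtain ⟨T, hT⟩ : ∃ T : Finset (ℙ K (Fin (n + 1) → K)), T = (Finset.range k0).biUnion fun k =>
      Z (2 ^ k) Nat.one_le_two_pow := ⟨_, rfl⟩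
  have hsub : {P : ℙ K (Fin (n + 1) → K) | bad P ∧ Height.logHeight P.rep ≤ U} ⊆ (T : Set _) := by
    rintro P ⟨hb, hP⟩
    have h1 := one_le_height P
    rw [logHeight_eq] at hP
    -- the exponent
    obtain ⟨k, hk⟩ : ∃ k : ℕ, k = ⌈Real.log P.mulHeight / Real.log 2⌉₊ := ⟨_, rfl⟩
    have hlogP : 0 ≤ Real.log P.mulHeight := Real.log_nonneg h1
    have hk1 : Real.log P.mulHeight / Real.log 2 ≤ k := by rw [hk]; exact Nat.le_ceil _
    have hk2 : (k : ℝ) < Real.log P.mulHeight / Real.log 2 + 1 := by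
      rw [hk]; exact Nat.ceil_lt_add_one (by positivity)
    have hpow : ((2 ^ k : ℕ) : ℝ) = Real.exp (k * Real.log 2) := by
      rw [mul_comm, Real.exp_mul, Real.exp_log two_pos, Real.rpow_natCast]
      push_cast; rfl
    have h2 : P.mulHeight ≤ ((2 ^ k : ℕ) : ℝ) := by
      rw [hpow, ← Real.log_le_iff_le_exp (by linarith)]
      rwa [div_le_iff₀ hl2] at hk1
    have h3 : ((2 ^ k : ℕ) : ℝ) < 2 * P.mulHeight := by
      rw [hpow]
      have h4 : (k : ℝ) * Real.log 2 < Real.log P.mulHeight + Real.log 2 := by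
        have := mul_lt_mul_of_pos_right hk2 hl2
        rw [add_mul, div_mul_cancel₀ _ hl2.ne', one_mul] at this
        exact this
      have h5 := Real.exp_lt_exp.2 h4
      rw [Real.exp_add, Real.exp_log (by linarith), Real.exp_log two_pos] at h5
      linarith
    have hkk : k < k0 := by
      have h4 : (k : ℝ) < U / Real.log 2 + 1 := by
        have : Real.log P.mulHeight / Real.log 2 ≤ U / Real.log 2 :=
          div_le_div_of_nonneg_right hP hl2.le
        linarith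
      have h5 : U / Real.log 2 < ⌊U / Real.log 2⌋₊ + 1 := Nat.lt_floor_add_one _
      have h6 : (k : ℝ) < (k0 : ℝ) := by
        rw [hk0]; push_cast; linarith
      exact_mod_cast h6
    rw [hT, Finset.mem_coe, Finset.mem_biUnion]
    exact ⟨k, Finset.mem_range.2 hkk, hZ2 _ _ P h2 h3 hb⟩
  have hfin : {P : ℙ K (Fin (n + 1) → K) | bad P ∧ Height.logHeight P.rep ≤ U}.Finite :=
    T.finite_toSet.subset hsub
  refine ⟨hfin, ?_⟩
  have h1 : ({P : ℙ K (Fin (n + 1) → K) | bad P ∧ Height.logHeight P.rep ≤ U}.ncard : ℝ) ≤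
      (T.card : ℝ) := by
    rw [← Set.ncard_coe_finset]
    exact_mod_cast Set.ncard_le_ncard hsub T.finite_toSet
  have h2 : (T.card : ℝ) ≤ k0 * (|C| * (2 ^ (D - c') * Real.exp ((D - c') * U))) := by
    have h3 : (T.card : ℝ) ≤ ∑ k ∈ Finset.range k0, ((Z (2 ^ k) Nat.one_le_two_pow).card : ℝ) := by
      rw [hT]
      exact_mod_cast Finset.card_biUnion_le
    refine h3.trans ?_
    have h4 : ∀ k ∈ Finset.range k0, ((Z (2 ^ k) Nat.one_le_two_pow).card : ℝ) ≤
        |C| * (2 ^ (D - c') * Real.exp ((D - c') * U)) := by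
      intro k hk
      rw [Finset.mem_range] at hk
      refine (hZ1 (2 ^ k) Nat.one_le_two_pow).trans ?_
      have hB1 : (1 : ℝ) ≤ ((2 ^ k : ℕ) : ℝ) := by exact_mod_cast Nat.one_le_two_pow
      have h5 : (((2 ^ k : ℕ) : ℝ)) ^ (D - c) ≤ (((2 ^ k : ℕ) : ℝ)) ^ (D - c') :=
        Real.rpow_le_rpow_of_exponent_le hB1 (by linarith)
      have h6 : (((2 ^ k : ℕ) : ℝ)) ≤ 2 * Real.exp U := by
        have h7 : (k : ℝ) ≤ U / Real.log 2 + 1 := by
          have h8 : (k : ℝ) ≤ ⌊U / Real.log 2⌋₊ + 1 := by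
            have : k ≤ ⌊U / Real.log 2⌋₊ + 1 := by omega
            exact_mod_cast this
          have h9 : (⌊U / Real.log 2⌋₊ : ℝ) ≤ U / Real.log 2 := Nat.floor_le (by positivity)
          linarith
        have hpow : ((2 ^ k : ℕ) : ℝ) = Real.exp (k * Real.log 2) := by
          rw [mul_comm, Real.exp_mul, Real.exp_log two_pos, Real.rpow_natCast]
          push_cast; rfl
        rw [hpow]
        have h8 : (k : ℝ) * Real.log 2 ≤ U + Real.log 2 := by
          have := mul_le_mul_of_nonneg_right h7 hl2.le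
          rw [add_mul, div_mul_cancel₀ _ hl2.ne', one_mul] at this
          exact this
        have h9 := Real.exp_le_exp.2 h8
        rw [Real.exp_add, Real.exp_log two_pos] at h9
        linarith
      have h7 : (((2 ^ k : ℕ) : ℝ)) ^ (D - c') ≤ (2 * Real.exp U) ^ (D - c') :=
        Real.rpow_le_rpow (by linarith) h6 hDc
      have h8 : (2 * Real.exp U) ^ (D - c') = 2 ^ (D - c') * Real.exp ((D - c') * U) := by
        rw [Real.mul_rpow two_pos.le (Real.exp_pos _).le, ← Real.exp_mul, mul_comm U]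
      rw [h8] at h7
      calc C * (((2 ^ k : ℕ) : ℝ)) ^ (D - c) ≤ |C| * (((2 ^ k : ℕ) : ℝ)) ^ (D - c) :=
            mul_le_mul_of_nonneg_right (le_abs_self C) (by positivity)
        _ ≤ _ := mul_le_mul_of_nonneg_left (h5.trans h7) (abs_nonneg C)
    refine (Finset.sum_le_sum h4).trans (le_of_eq ?_)
    rw [Finset.sum_const, Finset.card_range, nsmul_eq_mul]
  have h3 : (k0 : ℝ) ≤ (2 / c' + 2 + 2 / (c' * Real.log 2)) * Real.exp (c' / 2 * U) := by
    have h4 : (k0 : ℝ) ≤ U / Real.log 2 + 2 := by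
      have h9 : (⌊U / Real.log 2⌋₊ : ℝ) ≤ U / Real.log 2 := Nat.floor_le (by positivity)
      rw [hk0]; push_cast; linarith
    have h5 : c' / 2 * U + 1 ≤ Real.exp (c' / 2 * U) := Real.add_one_le_exp _
    have h6 : U ≤ 2 / c' * Real.exp (c' / 2 * U) := by
      have h7 : c' / 2 * U ≤ Real.exp (c' / 2 * U) := by linarith
      have h8 := mul_le_mul_of_nonneg_left h7 (by positivity : 0 ≤ 2 / c')
      have h9 : 2 / c' * (c' / 2 * U) = U := by field_simp
      rwa [h9] at h8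
    have h7 : 1 ≤ Real.exp (c' / 2 * U) := Real.one_le_exp (by positivity)
    have h8 : U / Real.log 2 ≤ 2 / (c' * Real.log 2) * Real.exp (c' / 2 * U) := by
      have := div_le_div_of_nonneg_right h6 hl2.le
      refine this.trans (le_of_eq ?_)
      field_simp
    have h9 : 0 ≤ 2 / c' * Real.exp (c' / 2 * U) := by positivity
    nlinarith
  have h4 : Real.exp ((D - c' / 2) * U) = Real.exp (c' / 2 * U) * Real.exp ((D - c') * U) := by
    rw [← Real.exp_add]; congr 1; ring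
  rw [h4]
  refine h1.trans (h2.trans ?_)
  have h5 : 0 ≤ |C| * (2 ^ (D - c') * Real.exp ((D - c') * U)) := by positivity
  refine (mul_le_mul_of_nonneg_right h3 h5).trans (le_of_eq ?_)
  ring

/-- the weights of the starting library -/
theorem old_count (F : MvPolynomial (Fin (n + 1)) (𝓞 K)) (k m : ℕ) (hF : F.IsHomogeneous k)
    (hirr : Irreducible (toK F)) (hm : m ≤ 1 ∨ (m ≤ k ∧ k ≤ 2) ∨ IsNormForm F m)
    (κ : ℝ) (hκ : 0 < κ) : ∃ ν C : ℝ, 0 < ν ∧ ∀ U : ℝ, 0 ≤ U →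
    {P : ℙ K (Fin (n + 1) → K) | (aeval P.rep F ≠ 0 ∧
      tc F k P.rep < (m - κ) * Height.logHeight P.rep) ∧ Height.logHeight P.rep ≤ U}.Finite ∧
    ({P : ℙ K (Fin (n + 1) → K) | (aeval P.rep F ≠ 0 ∧
      tc F k P.rep < (m - κ) * Height.logHeight P.rep) ∧ Height.logHeight P.rep ≤ U}.ncard : ℝ) ≤
      C * Real.exp (((n + 1 : ℕ) - ν) * U) := by
  obtain ⟨c, hc, C, h⟩ := main_points (fun _ : Fin 1 => F) (fun _ => k) (fun _ => m)
    (fun _ => hF) (fun _ => hirr) (fun i j hij => absurd (Subsingleton.elim i j) hij)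
    (fun _ => hm) ∅ (by simp) (t := 0) Fin.elim0 Fin.elim0 Fin.elim0 Fin.elim0
    (fun l => l.elim0) (fun l => l.elim0) (fun l => l.elim0) (fun l => l.elim0) 0 le_rfl
    ((m : ℝ) - κ) (by simp [hκ])
  refine count_of_boxes (D := ((n + 1 : ℕ) : ℝ)) (by push_cast; linarith [Nat.cast_nonneg (α := ℝ) n])
    _ c hc C fun B hB => ?_
  obtain ⟨Z, hZ, h1⟩ := h B hB
  refine ⟨Z, by push_cast; exact hZ, ?_⟩
  intro P hP _ hb
  by_contra hcon
  obtain ⟨-, h2⟩ := h1 P hP hcon
  obtain ⟨-, h3⟩ := hb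
  have h4 : (0 : ℝ) * ∑ l : Fin 0, idealHeight ((Fin.elim0 : Fin 0 → _) l) (Fin.elim0 l)
    (Fin.elim0 l) (Fin.elim0 l) P.rep = 0 := zero_mul _
  rw [h4, add_zero] at h2
  have h5 : truncatedCount ∅ (fun _ : Fin 1 => F) (fun _ => k) P.rep = tc F k P.rep := rfl
  rw [h5] at h2
  have h6 : Height.logHeight P.rep ≤ Real.log B := by
    rw [logHeight_eq]
    exact Real.log_le_log (by linarith [one_le_height P]) hP
  have h7 : 0 ≤ Height.logHeight P.rep := Height.logHeight_nonneg _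
  have h8 := tc_nonneg F k P.rep
  rcases le_or_gt 0 ((m : ℝ) - κ) with h9 | h9
  · have := mul_le_mul_of_nonneg_left h6 h9
    linarith
  · have := mul_nonpos_of_nonpos_of_nonneg h9.le h7
    linarith

/-- the heights relative to ideals of codimension two -/
theorem ideal_count (F G : MvPolynomial (Fin (n + 1)) (𝓞 K)) (k e : ℕ) (hF : F.IsHomogeneous k)
    (hG : G.IsHomogeneous e) (hirr : Irreducible (toK F)) (hcop : ¬ toK F ∣ toK G)
    (κ : ℝ) (hκ : 0 < κ) (hκ1 : κ ≤ 1) : ∃ ν C : ℝ, 0 < ν ∧ ∀ U : ℝ, 0 ≤ U →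
    {P : ℙ K (Fin (n + 1) → K) | κ * Height.logHeight P.rep + 1 < idealHeight F G k e P.rep ∧
      Height.logHeight P.rep ≤ U}.Finite ∧
    ({P : ℙ K (Fin (n + 1) → K) | κ * Height.logHeight P.rep + 1 < idealHeight F G k e P.rep ∧
      Height.logHeight P.rep ≤ U}.ncard : ℝ) ≤ C * Real.exp (((n + 1 : ℕ) - ν) * U) := by
  obtain ⟨c, hc, C, h⟩ := main_points (K := K) (n := n) (q := 0) Fin.elim0 Fin.elim0 Fin.elim0
    (fun l => l.elim0) (fun l => l.elim0) (fun l => l.elim0) (fun l => l.elim0) ∅ (by simp)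
    (t := 1) (fun _ => F) (fun _ => G) (fun _ => k) (fun _ => e)
    (fun _ => hF) (fun _ => hG) (fun _ => hirr) (fun _ => hcop) 1 zero_le_one (-κ) (by simp [hκ])
  refine count_of_boxes (D := ((n + 1 : ℕ) : ℝ)) (by push_cast; linarith [Nat.cast_nonneg (α := ℝ) n])
    _ c hc C fun B hB => ?_
  obtain ⟨Z, hZ, h1⟩ := h B hB
  refine ⟨Z, by push_cast; exact hZ, ?_⟩
  intro P hP hP2 hb
  by_contra hcon
  obtain ⟨-, h2⟩ := h1 P hP hcon
  have h4 : truncatedCount ∅ (Fin.elim0 : Fin 0 → MvPolynomial (Fin (n + 1)) (𝓞 K)) Fin.elim0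
      P.rep = 0 := by
    unfold truncatedCount
    refine finsum_eq_zero_of_forall_eq_zero fun v => ?_
    rw [if_neg]
    rintro ⟨-, j, -⟩
    exact j.elim0
  rw [h4, Fin.sum_univ_one, one_mul] at h2
  have h5 : Real.log B ≤ Real.log 2 + Height.logHeight P.rep := by
    rw [logHeight_eq, ← Real.log_mul two_ne_zero (by linarith [one_le_height P])]
    exact Real.log_le_log (by exact_mod_cast hB) hP2.le
  have h6 : κ * Real.log 2 ≤ 1 := by
    have h7 : Real.log 2 ≤ 1 := by linarith [Real.log_two_lt_d9]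
    have h8 : 0 ≤ Real.log 2 := Real.log_nonneg one_le_two
    nlinarith
  have h7 := mul_le_mul_of_nonneg_left h5 hκ.le
  rw [mul_add] at h7
  have h8 : κ * Height.logHeight P.rep + 1 < idealHeight F G k e P.rep := hb
  linarith

end Pool.Agent.V7H60.NI
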