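import Pool.Agent.V7H60.NI.Old
import Pool.Agent.N572.DR.KE

/-! One exceptional set of points of projective space. -/

set_option autoImplicit false

namespace Pool.Agent.V7H60.NI

open MvPolynomial NumberField IsDedekindDomain Module Pool.Agent.R366.NF Pool.Agent.R366.AB
open scoped LinearAlgebra.Projectivization

variable {K : Type} [Field K] [NumberField K] {n : ℕ}

/-- the weights -/
def Weight (F : MvPolynomial (Fin (n + 1)) (𝓞 K)) (k m : ℕ) : Prop :=
  m ≤ 1 ∨ (m ≤ k ∧ k ≤ 2) ∨ IsNormForm F m ∨ (m ≤ k ∧ IsWide F k)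

theorem countable_form (K : Type) [Field K] [NumberField K] (n : ℕ) :
    Countable (MvPolynomial (Fin n) (𝓞 K)) := by
  have h1 : Countable K := Pool.Agent.N572.DR.KE.countable_nf K
  have h2 : Countable (𝓞 K) := Function.Injective.countable (RingOfIntegers.coe_injective (K := K))
  rw [← Cardinal.mk_le_aleph0_iff]
  refine (MvPolynomial.cardinalMk_le_max (R := 𝓞 K) (σ := Fin n)).trans ?_
  exact max_le (max_le (Cardinal.mk_le_aleph0_iff.2 h2)
    (Cardinal.mk_le_aleph0_iff.2 inferInstance)) le_rfl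

theorem count (F : MvPolynomial (Fin (n + 1)) (𝓞 K)) (k m : ℕ) (hF : F.IsHomogeneous k)
    (hirr : Irreducible (toK F)) (hm : Weight F k m)
    (κ : ℝ) (hκ : 0 < κ) : ∃ ν C : ℝ, 0 < ν ∧ ∀ U : ℝ, 0 ≤ U →
    {P : ℙ K (Fin (n + 1) → K) | (aeval P.rep F ≠ 0 ∧
      tc F k P.rep < (m - κ) * Height.logHeight P.rep) ∧ Height.logHeight P.rep ≤ U}.Finite ∧
    ({P : ℙ K (Fin (n + 1) → K) | (aeval P.rep F ≠ 0 ∧
      tc F k P.rep < (m - κ) * Height.logHeight P.rep) ∧ Height.logHeight P.rep ≤ U}.ncard : ℝ) ≤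
      C * Real.exp (((n + 1 : ℕ) - ν) * U) := by
  rcases hm with h | h | h | ⟨h, hw⟩
  · exact old_count F k m hF hirr (Or.inl h) κ hκ
  · exact old_count F k m hF hirr (Or.inr (Or.inl h)) κ hκ
  · exact old_count F k m hF hirr (Or.inr (Or.inr h)) κ hκ
  · obtain ⟨ν, C, hν, hC⟩ := wide_count F k hF hw κ hκ
    refine ⟨ν, C, hν, fun U hU => ?_⟩
    obtain ⟨h1, h2⟩ := hC U hU
    have hsub : {P : ℙ K (Fin (n + 1) → K) | (aeval P.rep F ≠ 0 ∧
        tc F k P.rep < (m - κ) * Height.logHeight P.rep) ∧ Height.logHeight P.rep ≤ U} ⊆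
        {P : ℙ K (Fin (n + 1) → K) | (aeval P.rep F ≠ 0 ∧
        tc F k P.rep < (k - κ) * Height.logHeight P.rep) ∧ Height.logHeight P.rep ≤ U} := by
      rintro P ⟨⟨h3, h4⟩, h5⟩
      refine ⟨⟨h3, h4.trans_le ?_⟩, h5⟩
      have h6 : (m : ℝ) ≤ k := by exact_mod_cast h
      exact mul_le_mul_of_nonneg_right (by linarith) (Height.logHeight_nonneg _)
    refine ⟨h1.subset hsub, le_trans ?_ h2⟩
    exact_mod_cast Set.ncard_le_ncard hsub h1

/-- **one exceptional set** -/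
theorem one_set (K : Type) [Field K] [NumberField K] (n : ℕ) :
    ∃ E : Set (ℙ K (Fin (n + 1) → K)),
      (∀ U : ℝ, 0 ≤ U → {P : ℙ K (Fin (n + 1) → K) | P ∈ E ∧ Height.logHeight P.rep ≤ U}.Finite ∧
        ({P : ℙ K (Fin (n + 1) → K) | P ∈ E ∧ Height.logHeight P.rep ≤ U}.ncard : ℝ) ≤
          Real.exp ((n + 1 : ℕ) * U - √U)) ∧
      (∀ (F : MvPolynomial (Fin (n + 1)) (𝓞 K)) (k m : ℕ), F.IsHomogeneous k →
        Irreducible (toK F) → Weight F k m → ∀ κ : ℝ, 0 < κ → ∃ C : ℝ, 0 ≤ C ∧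
        ∀ P : ℙ K (Fin (n + 1) → K), P ∉ E → aeval P.rep F ≠ 0 →
          (m - κ) * Height.logHeight P.rep ≤ tc F k P.rep + C) ∧
      (∀ (F G : MvPolynomial (Fin (n + 1)) (𝓞 K)) (k e : ℕ), F.IsHomogeneous k →
        G.IsHomogeneous e → Irreducible (toK F) → ¬ toK F ∣ toK G → ∀ κ : ℝ, 0 < κ →
        ∃ C : ℝ, 0 ≤ C ∧ ∀ P : ℙ K (Fin (n + 1) → K), P ∉ E →
          idealHeight F G k e P.rep ≤ κ * Height.logHeight P.rep + C) := by
  classical
  have hcount := countable_form K (n + 1)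
  obtain ⟨E, hE1, hE2⟩ := Pool.Agent.N572.DR.Diag.t (ℙ K (Fin (n + 1) → K))
    ((MvPolynomial (Fin (n + 1)) (𝓞 K) × ℕ × ℕ × ℕ) ⊕
      (MvPolynomial (Fin (n + 1)) (𝓞 K) × MvPolynomial (Fin (n + 1)) (𝓞 K) × ℕ × ℕ × ℕ))
    (fun U P => Height.logHeight P.rep ≤ U) (fun U U' P hUU hP => hP.trans hUU)
    (fun j P => match j with
      | Sum.inl (F, k, m, i) => (F.IsHomogeneous k ∧ Irreducible (toK F) ∧ Weight F k m) ∧
          (aeval P.rep F ≠ 0 ∧ tc F k P.rep < (m - 1 / ((i : ℝ) + 1)) * Height.logHeight P.rep)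
      | Sum.inr (F, G, k, e, i) => (F.IsHomogeneous k ∧ G.IsHomogeneous e ∧
          Irreducible (toK F) ∧ ¬ toK F ∣ toK G) ∧
          1 / ((i : ℝ) + 1) * Height.logHeight P.rep + 1 < idealHeight F G k e P.rep)
    ((n + 1 : ℕ) : ℝ) (by positivity) (by
    rintro (⟨F, k, m, i⟩ | ⟨F, G, k, e, i⟩)
    · by_cases hg : F.IsHomogeneous k ∧ Irreducible (toK F) ∧ Weight F k m
      · obtain ⟨ν, C, hν, hC⟩ := count F k m hg.1 hg.2.1 hg.2.2 (1 / ((i : ℝ) + 1)) (by positivity)
        refine ⟨ν, C, hν, fun U hU => ?_⟩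
        obtain ⟨h1, h2⟩ := hC U hU
        have he : {P : ℙ K (Fin (n + 1) → K) | ((F.IsHomogeneous k ∧ Irreducible (toK F) ∧
            Weight F k m) ∧ (aeval P.rep F ≠ 0 ∧
            tc F k P.rep < (m - 1 / ((i : ℝ) + 1)) * Height.logHeight P.rep)) ∧
            Height.logHeight P.rep ≤ U} ⊆ {P : ℙ K (Fin (n + 1) → K) | (aeval P.rep F ≠ 0 ∧
            tc F k P.rep < (m - 1 / ((i : ℝ) + 1)) * Height.logHeight P.rep) ∧
            Height.logHeight P.rep ≤ U} := by
          rintro P ⟨⟨-, h3⟩, h4⟩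
          exact ⟨h3, h4⟩
        refine ⟨h1.subset he, le_trans ?_ h2⟩
        exact_mod_cast Set.ncard_le_ncard he h1
      · refine ⟨1, 0, one_pos, fun U hU => ?_⟩
        have he : {P : ℙ K (Fin (n + 1) → K) | ((F.IsHomogeneous k ∧ Irreducible (toK F) ∧
            Weight F k m) ∧ (aeval P.rep F ≠ 0 ∧
            tc F k P.rep < (m - 1 / ((i : ℝ) + 1)) * Height.logHeight P.rep)) ∧
            Height.logHeight P.rep ≤ U} = ∅ := by
          rw [Set.eq_empty_iff_forall_notMem]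
          rintro P ⟨⟨h, _⟩, _⟩
          exact hg h
        show Set.Finite {P : ℙ K (Fin (n + 1) → K) | ((F.IsHomogeneous k ∧ Irreducible (toK F) ∧
            Weight F k m) ∧ (aeval P.rep F ≠ 0 ∧
            tc F k P.rep < (m - 1 / ((i : ℝ) + 1)) * Height.logHeight P.rep)) ∧
            Height.logHeight P.rep ≤ U} ∧
          (Set.ncard {P : ℙ K (Fin (n + 1) → K) | ((F.IsHomogeneous k ∧ Irreducible (toK F) ∧
            Weight F k m) ∧ (aeval P.rep F ≠ 0 ∧
            tc F k P.rep < (m - 1 / ((i : ℝ) + 1)) * Height.logHeight P.rep)) ∧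
            Height.logHeight P.rep ≤ U} : ℝ) ≤ _
        rw [he]
        simp
    · by_cases hg : F.IsHomogeneous k ∧ G.IsHomogeneous e ∧ Irreducible (toK F) ∧
          ¬ toK F ∣ toK G
      · obtain ⟨ν, C, hν, hC⟩ := ideal_count F G k e hg.1 hg.2.1 hg.2.2.1 hg.2.2.2
          (1 / ((i : ℝ) + 1)) (by positivity) (by
            rw [div_le_one (by positivity)]
            linarith [Nat.cast_nonneg (α := ℝ) i])
        refine ⟨ν, C, hν, fun U hU => ?_⟩
        obtain ⟨h1, h2⟩ := hC U hU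
        have he : {P : ℙ K (Fin (n + 1) → K) | ((F.IsHomogeneous k ∧ G.IsHomogeneous e ∧
            Irreducible (toK F) ∧ ¬ toK F ∣ toK G) ∧
            1 / ((i : ℝ) + 1) * Height.logHeight P.rep + 1 < idealHeight F G k e P.rep) ∧
            Height.logHeight P.rep ≤ U} ⊆ {P : ℙ K (Fin (n + 1) → K) |
            1 / ((i : ℝ) + 1) * Height.logHeight P.rep + 1 < idealHeight F G k e P.rep ∧
            Height.logHeight P.rep ≤ U} := by
          rintro P ⟨⟨-, h3⟩, h4⟩
          exact ⟨h3, h4⟩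
        refine ⟨h1.subset he, le_trans ?_ h2⟩
        exact_mod_cast Set.ncard_le_ncard he h1
      · refine ⟨1, 0, one_pos, fun U hU => ?_⟩
        have he : {P : ℙ K (Fin (n + 1) → K) | ((F.IsHomogeneous k ∧ G.IsHomogeneous e ∧
            Irreducible (toK F) ∧ ¬ toK F ∣ toK G) ∧
            1 / ((i : ℝ) + 1) * Height.logHeight P.rep + 1 < idealHeight F G k e P.rep) ∧
            Height.logHeight P.rep ≤ U} = ∅ := by
          rw [Set.eq_empty_iff_forall_notMem]
          rintro P ⟨⟨h, _⟩, _⟩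
          exact hg h
        show Set.Finite {P : ℙ K (Fin (n + 1) → K) | ((F.IsHomogeneous k ∧ G.IsHomogeneous e ∧
            Irreducible (toK F) ∧ ¬ toK F ∣ toK G) ∧
            1 / ((i : ℝ) + 1) * Height.logHeight P.rep + 1 < idealHeight F G k e P.rep) ∧
            Height.logHeight P.rep ≤ U} ∧
          (Set.ncard {P : ℙ K (Fin (n + 1) → K) | ((F.IsHomogeneous k ∧ G.IsHomogeneous e ∧
            Irreducible (toK F) ∧ ¬ toK F ∣ toK G) ∧
            1 / ((i : ℝ) + 1) * Height.logHeight P.rep + 1 < idealHeight F G k e P.rep) ∧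
            Height.logHeight P.rep ≤ U} : ℝ) ≤ _
        rw [he]
        simp)
  refine ⟨E, fun U hU => hE1 U hU, ?_, ?_⟩
  · intro F k m hF hirr hm κ hκ
    obtain ⟨i, hi⟩ := exists_nat_one_div_lt hκ
    obtain ⟨U, hU0, hU⟩ := hE2 (Sum.inl (F, k, m, i))
    refine ⟨m * U, by positivity, ?_⟩
    intro P hPE hP0
    have hh : 0 ≤ Height.logHeight P.rep := Height.logHeight_nonneg _
    have hk2 : (m - κ) * Height.logHeight P.rep ≤
        (m - 1 / ((i : ℝ) + 1)) * Height.logHeight P.rep :=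
      mul_le_mul_of_nonneg_right (by linarith) hh
    have ht := tc_nonneg F k P.rep
    have hmU : 0 ≤ (m : ℝ) * U := by positivity
    rcases lt_or_ge (tc F k P.rep) ((m - 1 / ((i : ℝ) + 1)) * Height.logHeight P.rep) with h | h
    · have h1 : Height.logHeight P.rep ≤ U := hU P hPE ⟨⟨hF, hirr, hm⟩, hP0, h⟩
      have h2 := mul_le_mul_of_nonneg_left h1 (Nat.cast_nonneg (α := ℝ) m)
      have h3 : 0 ≤ κ * Height.logHeight P.rep := by positivity
      rw [sub_mul]
      linarith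
    · linarith
  · intro F G k e hF hG hirr hcop κ hκ
    obtain ⟨i, hi⟩ := exists_nat_one_div_lt hκ
    obtain ⟨U, hU0, hU⟩ := hE2 (Sum.inr (F, G, k, e, i))
    -- finitely many points of bounded height
    have hfin : {P : ℙ K (Fin (n + 1) → K) | Height.logHeight P.rep ≤ U}.Finite := by
      obtain ⟨ν, C, -, h⟩ := Pool.Agent.N752.CV.t2 Pool.Agent.N498.CV.t K (n + 1) (X 0) 1
        (X_ne_zero _) (isHomogeneous_X K 0)
      exact (h U hU0).1
    obtain ⟨C, hC⟩ : ∃ C : ℝ, ∀ P ∈ {P : ℙ K (Fin (n + 1) → K) | Height.logHeight P.rep ≤ U},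
        idealHeight F G k e P.rep ≤ C := by
      obtain ⟨C, hC⟩ := (hfin.image fun P => idealHeight F G k e P.rep).bddAbove
      exact ⟨C, fun P hP => hC (Set.mem_image_of_mem _ hP)⟩
    refine ⟨max C 1, by positivity, ?_⟩
    intro P hPE
    have hh : 0 ≤ Height.logHeight P.rep := Height.logHeight_nonneg _
    have hk2 : 1 / ((i : ℝ) + 1) * Height.logHeight P.rep ≤ κ * Height.logHeight P.rep :=
      mul_le_mul_of_nonneg_right hi.le hh
    rcases lt_or_ge (1 / ((i : ℝ) + 1) * Height.logHeight P.rep + 1)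
      (idealHeight F G k e P.rep) with h | h
    · have h1 : Height.logHeight P.rep ≤ U := hU P hPE ⟨⟨hF, hG, hirr, hcop⟩, h⟩
      have h2 := hC P h1
      have h3 := le_max_left C 1
      have h4 : 0 ≤ κ * Height.logHeight P.rep := by positivity
      linarith
    · have h3 := le_max_right C 1
      linarith

end Pool.Agent.V7H60.NI
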