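import Pool.Agent.V7H60.CV.All
import Pool.Agent.R366.AB.Main

/-! Truncated counting functions of incomplete norm forms in more than half the degree variables. -/

set_option autoImplicit false

namespace Pool.Agent.V7H60.NI

open MvPolynomial NumberField IsDedekindDomain Module Pool.Agent.R366.NF Pool.Agent.R366.AB
open Pool.Agent.N753.DR (Wide StmCoreV StmRedC lN sz Bx)
open Pool.Agent.N262.DR (lN_nonneg pow_bound Bx_finite)
open scoped LinearAlgebra.Projectivization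

variable {K : Type} [Field K] [NumberField K] {n : ℕ}

/-- `F` is, up to a constant factor, the norm form of `∑ α i * x i` from an extension `E` of `K` of
degree `k`; the ratios of the `α i` generate `E`, and more than `k / 2` of the `α i` are linearly
independent over `K`. -/
def IsWide (F : MvPolynomial (Fin (n + 1)) (𝓞 K)) (k : ℕ) : Prop :=
  ∃ (E : Type) (_ : Field E) (_ : NumberField E) (_ : Algebra K E) (c : K) (α : Fin (n + 1) → E),
    c ≠ 0 ∧ finrank K E = k ∧ Wide K α ∧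
      ∀ x : Fin (n + 1) → 𝓞 K, ((eval x F : 𝓞 K) : K) =
        c * Algebra.norm K (∑ i, algebraMap K E (x i) * α i)

/-- the truncated counting function of one form -/
noncomputable def tc (F : MvPolynomial (Fin (n + 1)) (𝓞 K)) (k : ℕ) (x : Fin (n + 1) → K) : ℝ :=
  truncatedCount ∅ (fun _ : Fin 1 => F) (fun _ => k) x

/-- the places which are counted -/
def Pl (F : MvPolynomial (Fin (n + 1)) (𝓞 K)) (k : ℕ) (x : Fin (n + 1) → K) :
    Set (HeightOneSpectrum (𝓞 K)) :=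
  {v | FinitePlace.mk v (aeval x F) < (⨆ i, FinitePlace.mk v (x i)) ^ k}

lemma sup_fin {x : Fin (n + 1) → K} (hx : x ≠ 0) :
    {v : HeightOneSpectrum (𝓞 K) | (⨆ i, FinitePlace.mk v (x i)) ≠ 1}.Finite := by
  have hsupx : (Function.mulSupport fun v : FinitePlace K => ⨆ i, v (x i)).Finite :=
    Pool.Agent.H57R3.VJ.sv_fin hx
  have h2 : Set.InjOn (FinitePlace.mk (K := K)) ((FinitePlace.mk (K := K)) ⁻¹'
      Function.mulSupport fun v : FinitePlace K => ⨆ i, v (x i)) := by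
    intro v _ w _ hvw
    exact FinitePlace.mk_eq_iff.1 hvw
  exact (Set.Finite.preimage h2 hsupx).subset fun v hv => hv

lemma Pl_fin (F : MvPolynomial (Fin (n + 1)) (𝓞 K)) (k : ℕ) {x : Fin (n + 1) → K} (hx : x ≠ 0)
    (hF : aeval x F ≠ 0) : (Pl F k x).Finite := by
  refine ((fin_ne_one hF).union (sup_fin hx)).subset fun v hv => ?_
  rw [Set.mem_union]
  by_contra hcon
  rw [not_or] at hcon
  obtain ⟨h1, h2⟩ := hcon
  have h1' : FinitePlace.mk v (aeval x F) = 1 := by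
    by_contra h; exact h1 h
  have h2' : (⨆ i, FinitePlace.mk v (x i)) = 1 := by
    by_contra h; exact h2 h
  have h3 : FinitePlace.mk v (aeval x F) < (⨆ i, FinitePlace.mk v (x i)) ^ k := hv
  rw [h1', h2', one_pow] at h3
  exact lt_irrefl _ h3

lemma tc_eq (F : MvPolynomial (Fin (n + 1)) (𝓞 K)) (k : ℕ) {x : Fin (n + 1) → K}
    (h : (Pl F k x).Finite) : tc F k x = ∑ v ∈ h.toFinset, lN v := by
  classical
  unfold tc truncatedCount
  rw [finsum_eq_sum_of_support_subset _ (s := h.toFinset) (by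
      intro v hv
      rw [Function.mem_support] at hv
      rw [Finset.mem_coe, Set.Finite.mem_toFinset]
      by_contra hcon
      apply hv
      rw [if_neg]
      rintro ⟨-, j, hj⟩
      exact hcon hj)]
  refine Finset.sum_congr rfl fun v hv => ?_
  rw [Set.Finite.mem_toFinset] at hv
  rw [if_pos ⟨fun p hp => absurd hp (Finset.notMem_empty p), 0, hv⟩]
  rfl

lemma tc_nonneg (F : MvPolynomial (Fin (n + 1)) (𝓞 K)) (k : ℕ) (x : Fin (n + 1) → K) :
    0 ≤ tc F k x := by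
  unfold tc truncatedCount
  refine finsum_nonneg fun v => ?_
  split_ifs
  · exact (logN_pos v).le
  · exact le_rfl

lemma Pl_smul (F : MvPolynomial (Fin (n + 1)) (𝓞 K)) {k : ℕ} (hF : F.IsHomogeneous k) {c : K}
    (hc : c ≠ 0) (x : Fin (n + 1) → K) : Pl F k (c • x) = Pl F k x := by
  ext v
  have hv : 0 < FinitePlace.mk v c := FinitePlace.pos_iff.2 hc
  have h2 : (⨆ i, FinitePlace.mk v ((c • x) i)) = FinitePlace.mk v c * ⨆ i, FinitePlace.mk v (x i) :=
    sup_smul (FinitePlace.mk v).1 c x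
  show FinitePlace.mk v (aeval (c • x) F) < (⨆ i, FinitePlace.mk v ((c • x) i)) ^ k ↔
    FinitePlace.mk v (aeval x F) < (⨆ i, FinitePlace.mk v (x i)) ^ k
  rw [h2, aeval_smul F hF, map_mul, map_pow, mul_pow]
  exact mul_lt_mul_iff_right₀ (pow_pos hv _)

lemma mk_lt_iff (v : HeightOneSpectrum (𝓞 K)) (a : 𝓞 K) :
    FinitePlace.mk v (a : K) < 1 ↔ a ∈ v.asIdeal := by
  rw [FinitePlace.mk_apply]
  exact FinitePlace.norm_lt_one_iff_mem K v a

lemma mk_eq_one {v : HeightOneSpectrum (𝓞 K)} {a : 𝓞 K} (h : a ∉ v.asIdeal) :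
    FinitePlace.mk v (a : K) = 1 := by
  refine le_antisymm (fp_le_one _ a) ?_
  by_contra hcon
  exact h ((mk_lt_iff v a).1 (not_le.1 hcon))

lemma norm_mem {E : Type} [Field E] [NumberField E] [Algebra K E] {v : HeightOneSpectrum (𝓞 K)}
    {w : HeightOneSpectrum (𝓞 E)} (h : w.asIdeal.LiesOver v.asIdeal) {z : 𝓞 E}
    (hz : z ∈ w.asIdeal) : ∃ y : 𝓞 K, y ∈ v.asIdeal ∧ (y : K) = Algebra.norm K (z : E) := by
  refine ⟨Algebra.intNorm (𝓞 K) (𝓞 E) z, ?_, ?_⟩
  · rw [h.over, Ideal.under_def, Ideal.mem_comap]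
    exact Ideal.mem_of_dvd _ (Algebra.dvd_algebraMap_intNorm_self _ _ z) hz
  · exact Algebra.algebraMap_intNorm (A := 𝓞 K) (K := K) (L := E) (B := 𝓞 E) z

/-- if the linear form vanishes modulo a prime of `E`, then the norm form vanishes -/
lemma wide_link {E : Type} [Field E] [NumberField E] [Algebra K E] (c0 : K) (hc0 : c0 ≠ 0)
    (α : Fin (n + 1) → E) (F : MvPolynomial (Fin (n + 1)) (𝓞 K)) (k : ℕ)
    (hF : ∀ x : Fin (n + 1) → 𝓞 K, ((eval x F : 𝓞 K) : K) =
        c0 * Algebra.norm K (∑ i, algebraMap K E (x i) * α i)) :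
    ∃ Bad : Finset (HeightOneSpectrum (𝓞 K)), ∀ v ∉ Bad, ∀ c : Fin (n + 1) → 𝓞 K,
      (∃ i, c i ∉ v.asIdeal) → ∀ w : HeightOneSpectrum (𝓞 E), w.asIdeal.LiesOver v.asIdeal →
        w.valuation E (∑ i, algebraMap K E (c i : K) * α i) < 1 →
        v ∈ Pl F k (fun i => (c i : K)) := by
  classical
  obtain ⟨D, hD, hDi⟩ := Pool.Agent.N328.CV.exists_den (F := E) α
  obtain ⟨β, hβ⟩ : ∃ β : Fin (n + 1) → 𝓞 E, ∀ j, algebraMap (𝓞 E) E (β j) = (D : E) * α j :=
    ⟨fun j => ⟨_, hDi j⟩, fun j => rfl⟩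
  refine ⟨(fin_ne_one hc0).toFinset ∪
    (Pool.Agent.N328.CV.bad_finite (K := K) D hD).toFinset, ?_⟩
  intro v hv c hprim w hw hval
  rw [Finset.mem_union, not_or, Set.Finite.mem_toFinset, Set.Finite.mem_toFinset] at hv
  obtain ⟨hv1, hv2⟩ := hv
  have hv1' : FinitePlace.mk v c0 = 1 := by
    by_contra h; exact hv1 h
  have hDv : (D : 𝓞 K) ∉ v.asIdeal := hv2
  obtain ⟨z, hz⟩ : ∃ z : 𝓞 E, z = ∑ i, algebraMap (𝓞 K) (𝓞 E) (c i) * β i := ⟨_, rfl⟩
  have hzE : (z : E) = (D : E) * ∑ i, algebraMap K E (c i : K) * α i := by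
    rw [hz]
    show algebraMap (𝓞 E) E (∑ i, algebraMap (𝓞 K) (𝓞 E) (c i) * β i) = _
    rw [map_sum, Finset.mul_sum]
    refine Finset.sum_congr rfl fun i _ => ?_
    rw [map_mul, hβ]
    have h1 : algebraMap (𝓞 E) E (algebraMap (𝓞 K) (𝓞 E) (c i)) =
        algebraMap K E (c i : K) := by
      rw [← IsScalarTower.algebraMap_apply (𝓞 K) (𝓞 E) E]
      exact IsScalarTower.algebraMap_apply (𝓞 K) K E (c i)
    rw [h1]
    ring
  have hzw : z ∈ w.asIdeal := by
    rw [← w.valuation_lt_one_iff_mem (K := E)]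
    show w.valuation E (z : E) < 1
    rw [hzE, map_mul]
    refine lt_of_le_of_lt (mul_le_of_le_one_left' ?_) hval
    have h1 : w.valuation E ((D : 𝓞 E) : E) ≤ 1 := w.valuation_le_one (D : 𝓞 E)
    have h2 : (((D : 𝓞 E)) : E) = (D : E) := by simp
    rwa [h2] at h1
  obtain ⟨y, hy1, hy2⟩ := norm_mem hw hzw
  show FinitePlace.mk v (aeval (fun i => (c i : K)) F) <
    (⨆ i, FinitePlace.mk v (c i : K)) ^ k
  have hsup : (⨆ i, FinitePlace.mk v (c i : K)) = 1 := by
    obtain ⟨i, hi⟩ := hprim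
    refine le_antisymm (ciSup_le fun i => fp_le_one _ (c i)) ?_
    rw [← mk_eq_one hi]
    exact Finite.le_ciSup_of_le i le_rfl
  rw [hsup, one_pow, aeval_coe]
  have hkey : (D : K) ^ finrank K E * ((eval c F : 𝓞 K) : K) = c0 * (y : K) := by
    rw [hF, hy2, hzE, map_mul]
    have h1 : (D : E) = algebraMap K E (D : K) := by rw [map_natCast]
    rw [h1, Algebra.norm_algebraMap]
    ring
  have hD1 : FinitePlace.mk v (D : K) = 1 := by
    have h1 := mk_eq_one hDv
    have h2 : (((D : 𝓞 K)) : K) = (D : K) := by simp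
    rwa [h2] at h1
  have h3 := congrArg (FinitePlace.mk v) hkey
  rw [map_mul, map_mul, map_pow, hD1, one_pow, one_mul, hv1', one_mul] at h3
  rw [h3]
  exact (mk_lt_iff v y).2 hy1

/-- few points have a small truncated counting function -/
theorem wide_count (F : MvPolynomial (Fin (n + 1)) (𝓞 K)) (k : ℕ) (hF : F.IsHomogeneous k)
    (hW : IsWide F k) (κ : ℝ) (hκ : 0 < κ) : ∃ ν C : ℝ, 0 < ν ∧ ∀ U : ℝ, 0 ≤ U →
    {P : ℙ K (Fin (n + 1) → K) | (aeval P.rep F ≠ 0 ∧
      tc F k P.rep < (k - κ) * Height.logHeight P.rep) ∧ Height.logHeight P.rep ≤ U}.Finite ∧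
    ({P : ℙ K (Fin (n + 1) → K) | (aeval P.rep F ≠ 0 ∧
      tc F k P.rep < (k - κ) * Height.logHeight P.rep) ∧ Height.logHeight P.rep ≤ U}.ncard : ℝ) ≤
      C * Real.exp (((n + 1 : ℕ) - ν) * U) := by
  classical
  obtain ⟨E, _, _, _, cc, α, hcc, hdeg, hwide, hval⟩ := hW
  rcases le_or_gt (k : ℝ) κ with hdk | hdk
  · refine ⟨1, 0, one_pos, fun U hU => ?_⟩
    have he : {P : ℙ K (Fin (n + 1) → K) | (aeval P.rep F ≠ 0 ∧
      tc F k P.rep < (k - κ) * Height.logHeight P.rep) ∧ Height.logHeight P.rep ≤ U} = ∅ := by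
      rw [Set.eq_empty_iff_forall_notMem]
      rintro P ⟨⟨-, h⟩, -⟩
      have e1 := tc_nonneg F k P.rep
      have e2 : ((k : ℝ) - κ) * Height.logHeight P.rep ≤ 0 :=
        mul_nonpos_of_nonpos_of_nonneg (by linarith) (Height.logHeight_nonneg _)
      linarith
    rw [he]
    simp
  obtain ⟨Bad0, hB0⟩ := Pool.Agent.V7H60.CV.coreV K E (n + 1) α hwide
  obtain ⟨BadR, C0, hC0, hR⟩ := Pool.Agent.N498.CV.t K (n + 1)
  obtain ⟨BadL, hL⟩ := wide_link cc hcc α F k hval
  set Bad := Bad0 ∪ BadR ∪ BadL with hBad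
  obtain ⟨ν, C1, hν, hcore⟩ := hB0 Bad (fun v hv => by
    simp only [hBad, Finset.mem_union]; tauto) κ hκ
  set d : ℝ := (finrank ℚ K : ℝ) with hd
  have hn0 : 0 < d := by
    rw [hd]; exact_mod_cast (Module.finrank_pos : 0 < finrank ℚ K)
  set c0 : ℝ := max C0 1 with hc0
  have hc01 : 1 ≤ c0 := le_max_right _ _
  refine ⟨ν / d, |C1| * (2 * c0) ^ |d * ((n + 1 : ℕ) : ℝ) - ν|, by positivity, fun U hU => ?_⟩
  set y : ℝ := Real.exp (U / d) with hy
  have hy1 : 1 ≤ y := Real.one_le_exp (by positivity)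
  set B : ℕ := ⌈c0 * y⌉₊ with hB
  have hBl : c0 * y ≤ B := Nat.le_ceil _
  have hBu : (B : ℝ) ≤ 2 * c0 * y := by
    have := Nat.ceil_lt_add_one (a := c0 * y) (by positivity)
    have : 1 ≤ c0 * y := one_le_mul_of_one_le_of_one_le hc01 hy1
    linarith
  have hyB : y ≤ B := by
    have : 1 * y ≤ c0 * y := mul_le_mul_of_nonneg_right hc01 (by positivity)
    linarith
  have hB1 : 1 ≤ B := by
    have : (1 : ℝ) ≤ B := hy1.trans hyB
    exact_mod_cast this
  have hlog : U ≤ d * Real.log B := by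
    have : U / d ≤ Real.log B := by
      rw [← Real.log_exp (U / d)]
      exact Real.log_le_log (Real.exp_pos _) hyB
    rw [div_le_iff₀ hn0] at this
    linarith
  set EE := {c ∈ Bx K (n + 1) B | ∃ W : Finset (HeightOneSpectrum (𝓞 K)),
      (∀ v ∉ Bad, ∀ w : HeightOneSpectrum (𝓞 E), w.asIdeal.LiesOver v.asIdeal →
        w.valuation E (∑ i, algebraMap K E (c i : K) * α i) < 1 → v ∈ W) ∧
      ∑ v ∈ W, lN v ≤ (finrank K E - κ) * ((finrank ℚ K : ℝ) * Real.log B)} with hEE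
  have hEf : EE.Finite := (Bx_finite (K := K) (n + 1) B).subset fun c hc => hc.1
  set T : Set (ℙ K (Fin (n + 1) → K)) := {P | (aeval P.rep F ≠ 0 ∧
      tc F k P.rep < (k - κ) * Height.logHeight P.rep) ∧ Height.logHeight P.rep ≤ U} with hT
  have key : ∀ P ∈ T, ∃ c ∈ EE, ∃ l : K, l ≠ 0 ∧ ∀ i, (c i : K) = l * P.rep i := by
    rintro P ⟨⟨hFP, hWs⟩, hht⟩
    obtain ⟨c, l, hl, hcl, hprim, hsz⟩ := hR P.rep P.rep_nonzero
    have hfin := Pl_fin F k P.rep_nonzero hFP
    have hcs : (fun i => (c i : K)) = l • P.rep := by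
      funext i
      rw [Pi.smul_apply, smul_eq_mul]
      exact hcl i
    refine ⟨c, ⟨?_, hfin.toFinset, ?_, ?_⟩, l, hl, hcl⟩
    · intro j
      have h4 := hsz j
      have h5 : Real.exp (Height.logHeight P.rep / d) ≤ y :=
        Real.exp_le_exp.mpr (div_le_div_of_nonneg_right hht hn0.le)
      have h6 : (sz (c j) : ℝ) ≤ B := by
        refine h4.trans (le_trans ?_ hBl)
        exact mul_le_mul (le_max_left _ _) h5 (Real.exp_pos _).le (by positivity)
      exact_mod_cast h6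
    · intro v hv w hw hev
      have hvR : v ∉ BadR := fun h => hv (by simp only [hBad, Finset.mem_union]; tauto)
      have hvL : v ∉ BadL := fun h => hv (by simp only [hBad, Finset.mem_union]; tauto)
      have h7 := hL v hvL c (hprim v hvR) w hw hev
      rw [hcs, Pl_smul F hF hl] at h7
      rw [Set.Finite.mem_toFinset]
      exact h7
    · rw [← tc_eq F k hfin, hdeg]
      exact hWs.le.trans (mul_le_mul_of_nonneg_left (hht.trans hlog) (by linarith))
  choose! G hGE hGl using key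
  have hinj : Set.InjOn G T := by
    intro P hP P' hP' hPP
    obtain ⟨l, hl, h⟩ := hGl P hP
    obtain ⟨l', hl', h'⟩ := hGl P' hP'
    rw [← P.mk_rep, ← P'.mk_rep, Projectivization.mk_eq_mk_iff']
    refine ⟨l⁻¹ * l', ?_⟩
    funext i
    have e : l * P.rep i = l' * P'.rep i := by rw [← h i, ← h' i, hPP]
    rw [Pi.smul_apply, smul_eq_mul, mul_assoc, ← e, ← mul_assoc, inv_mul_cancel₀ hl, one_mul]
  have hmaps : Set.MapsTo G T EE := fun P hP => hGE P hP
  refine ⟨Set.Finite.of_injOn hmaps hinj hEf, ?_⟩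
  have h4 : (T.ncard : ℝ) ≤ (EE.ncard : ℝ) := by
    exact_mod_cast Set.ncard_le_ncard_of_injOn G hGE hinj hEf
  refine h4.trans ((hcore B hB1).trans ?_)
  have h5 := pow_bound (c := 2 * c0) (B := B) (y := y) (E := d * ((n + 1 : ℕ) : ℝ) - ν) (by linarith)
    (by positivity) hyB hBu
  have h6 : y ^ (d * ((n + 1 : ℕ) : ℝ) - ν) = Real.exp ((((n + 1 : ℕ) : ℝ) - ν / d) * U) := by
    rw [hy, ← Real.exp_mul]
    congr 1
    field_simp
  rw [h6] at h5
  calc C1 * (B : ℝ) ^ (d * ((n + 1 : ℕ) : ℝ) - ν) ≤ |C1| * (B : ℝ) ^ (d * ((n + 1 : ℕ) : ℝ) - ν) := by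
        gcongr; exact le_abs_self _
    _ ≤ |C1| * ((2 * c0) ^ |d * ((n + 1 : ℕ) : ℝ) - ν| *
        Real.exp ((((n + 1 : ℕ) : ℝ) - ν / d) * U)) := by gcongr
    _ = _ := by ring

end Pool.Agent.V7H60.NI
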